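import Pool.Agent.KS6_77.HomPr.Main

set_option autoImplicit false

namespace Pool.Agent.Results.MP_8222c7_an.ManyHomomorphisms

open WeakDual

/-- amenability (B. E. Johnson): every bounded derivation into the dual of a Banach bimodule is
inner; `L`, `R` are the module actions, `D a x = (D a)(x)` -/
def Amenable (A : Type) [NormedCommRing A] [NormedAlgebra ℂ A] : Prop :=
  ∀ (E : Type) (_ : NormedAddCommGroup E) (_ : NormedSpace ℂ E), CompleteSpace E →
    ∀ L R : A → E → E, IsBoundedBilinearMap ℂ (fun p : A × E => L p.1 p.2) →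
      IsBoundedBilinearMap ℂ (fun p : A × E => R p.1 p.2) →
      (∀ a b x, L (a * b) x = L a (L b x)) → (∀ a b x, R (a * b) x = R b (R a x)) →
      (∀ a b x, L a (R b x) = R b (L a x)) →
      ∀ D : A → E → ℂ, IsBoundedBilinearMap ℂ (fun p : A × E => D p.1 p.2) →
        (∀ a b x, D (a * b) x = D b (R a x) + D a (L b x)) →
        ∃ f : E → ℂ, IsBoundedLinearMap ℂ f ∧ ∀ a x, D a x = f (R a x) - f (L a x)

/-- characters separate the points -/
def Semisimple (A : Type) [NormedCommRing A] [NormedAlgebra ℂ A] : Prop :=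
  ∀ a : A, (∀ φ : characterSpace ℂ A, φ a = 0) → a = 0

/-- regularity on the Gelfand spectrum -/
def Regular (A : Type) [NormedCommRing A] [NormedAlgebra ℂ A] : Prop :=
  ∀ (F : Set (characterSpace ℂ A)) (φ : characterSpace ℂ A), IsClosed F → φ ∉ F →
    ∃ a : A, φ a ≠ 0 ∧ ∀ ψ ∈ F, ψ a = 0

/-- the Jacobson radical -/
abbrev rad (B : Type) [NormedCommRing B] [NormedAlgebra ℂ B] : Ideal B := Ideal.jacobson ⊥

/-- **The homomorphism property fails as badly as possible for a unital, semisimple, regular,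
amenable commutative Banach algebra `A`.** -/
theorem result : ∃ (A : Type) (_ : NormedCommRing A) (_ : NormedAlgebra ℂ A),
    CompleteSpace A ∧ Semisimple A ∧ Regular A ∧ Amenable A ∧
    (∃ (B : Type) (_ : NormedCommRing B) (_ : NormedAlgebra ℂ B),
      CompleteSpace B ∧ Amenable B ∧ rad B ≠ ⊥ ∧
      (∀ r ∈ rad B, r ∈ closure ((Submodule.span ℂ
        {x : B | ∃ s ∈ rad B, ∃ t ∈ rad B, x = s * t} : Submodule ℂ B) : Set B)) ∧
      ∃ (φ : A →ₐ[ℂ] B) (ω : A →ₐ[ℂ] ℂ), Continuous φ ∧ Function.Surjective φ ∧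
        ∀ a, φ a - algebraMap ℂ B (ω a) ∈ rad B) ∧
    (∀ I : Type, ∃ (C : Type) (_ : NormedCommRing C) (_ : NormedAlgebra ℂ C),
      CompleteSpace C ∧ ∃ Φ : Set I → (A →ₐ[ℂ] C), Function.Injective Φ ∧
        (∀ S, Continuous (Φ S)) ∧ ∀ S T a, Φ S a - Φ T a ∈ rad C) := by
  have am : ∀ (A : Type) [NormedCommRing A] [NormedAlgebra ℂ A], H611R3.ZL.Amenable A →
      Amenable A := fun A _ _ h E i1 i2 i3 L R l1 l2 l3 l4 l5 D d1 d2 =>
    h E i1 i2 i3 L R ⟨l1, l2, l3, l4, l5⟩ D ⟨d1, d2⟩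
  obtain ⟨A, iA, iA2, hA, hs, hr, hAm, B, iB, iB2, hB, hBm, φ, ψ, hφ, hψ, hsurj, ⟨ω, hω⟩, hrad,
    hne⟩ := Pool.Agent.H345R3.HomP.main
  refine ⟨A, iA, iA2, hA, hs, hr, am A hAm, ⟨B, iB, iB2, hB, am B hBm, ?_, ?_, φ, ω, hφ, hsurj,
    fun a => by rw [← hω]; exact hrad a⟩, fun I => ?_⟩
  · intro h0
    apply hne
    ext a
    have h1 := hrad a
    have h2 : φ a - ψ a ∈ (⊥ : Ideal B) := by rw [← h0]; exact h1
    exact sub_eq_zero.1 ((Submodule.mem_bot B).1 h2)
  · have hnt : Nontrivial B := by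
      by_contra hcon
      rw [not_nontrivial_iff_subsingleton] at hcon
      exact hne (AlgHom.ext fun a => Subsingleton.elim _ _)
    refine fun r hr' => Pool.Agent.KS6_77.HomPr.rad_sq hBm (fun b => ?_) r hr'
    obtain ⟨a, rfl⟩ := hsurj b
    exact ⟨ω a, by rw [← hω]; exact hrad a⟩
  · let _ : TopologicalSpace I := ⊥
    have : DiscreteTopology I := ⟨rfl⟩
    exact ⟨BoundedContinuousFunction I B, inferInstance, inferInstance, inferInstance,
      Pool.Agent.KS6_77.HomPr.Phi I φ ψ, Pool.Agent.KS6_77.HomPr.Phi_inj I φ ψ hne,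
      Pool.Agent.KS6_77.HomPr.Phi_cont I φ ψ hφ hψ, Pool.Agent.KS6_77.HomPr.Phi_rad I φ ψ hrad⟩

end Pool.Agent.Results.MP_8222c7_an.ManyHomomorphisms
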